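import Pool.Agent.Helper60.FF.StmtsC

/-!
# Module GDX: discs which do not meet the finite set are good
-/

set_option autoImplicit false

namespace Pool.Agent.Helper60.FF

open Polynomial

theorem gdx_sub_lt {p : ℕ} [Fact p.Prime] {x y z : ℂ_[p]} {R : ℝ} (h1 : ‖x - y‖ < R)
    (h2 : ‖y - z‖ < R) : ‖x - z‖ < R := by
  have h : x - z = (x - y) + (y - z) := by ring
  rw [h]
  exact (IsUltrametricDist.norm_add_le_max _ _).trans_lt (max_lt h1 h2)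

/-- concentric discs -/
theorem gdx_conc (hL3 : ST_L3) (hDIC : ST_DIC) {p n : ℕ} [Fact p.Prime] (hp : PP p n)
    (K : KD p n) (v : K.A) (R : ℝ)
    (hex : ∀ ϖ : K.A, ϖ ≠ 0 → ‖(ϖ : ℂ_[p])‖ < R → ∃ φ, CT K v ϖ φ)
    (ϖ₁ ϖ₂ : K.A) (h1 : ϖ₁ ≠ 0) (h2 : ϖ₂ ≠ 0) (hn1 : ‖(ϖ₁ : ℂ_[p])‖ < R)
    (hn2 : ‖(ϖ₂ : ℂ_[p])‖ < R) (φ : Polynomial (RF p)) (hφ : CT K v ϖ₁ φ) : CT K v ϖ₂ φ := by
  obtain ⟨d1, -, d3, -⟩ := hDIC p n hp K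
  rcases lt_trichotomy ‖(ϖ₁ : ℂ_[p])‖ ‖(ϖ₂ : ℂ_[p])‖ with hlt | heq | hgt
  · obtain ⟨φ₂, hφ₂⟩ := hex ϖ₂ h2 hn2
    obtain ⟨s, hs, e⟩ := hL3 p n hp K v ϖ₁ ϖ₂ h1 hlt
      (fun ϖ ha hb => hex ϖ (by
        rintro rfl
        have : (0 : ℝ) < ‖(ϖ₁ : ℂ_[p])‖ := norm_pos_iff.2 (by simpa using h1)
        simp only [ZeroMemClass.coe_zero, norm_zero] at ha
        linarith) (hb.trans_lt hn2)) φ φ₂ hφ hφ₂
    have e' : φ = C s⁻¹ * φ₂ := by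
      rw [e, ← mul_assoc, ← C_mul, inv_mul_cancel₀ hs, C_1, one_mul]
    rw [e']
    exact d3 v ϖ₂ φ₂ s⁻¹ (inv_ne_zero hs) hφ₂
  · exact (d1 v ϖ₁ v ϖ₂ h1 h2 heq (by simp) φ hφ).1
  · obtain ⟨φ₂, hφ₂⟩ := hex ϖ₂ h2 hn2
    obtain ⟨s, hs, e⟩ := hL3 p n hp K v ϖ₂ ϖ₁ h2 hgt
      (fun ϖ ha hb => hex ϖ (by
        rintro rfl
        have : (0 : ℝ) < ‖(ϖ₂ : ℂ_[p])‖ := norm_pos_iff.2 (by simpa using h2)
        simp only [ZeroMemClass.coe_zero, norm_zero] at ha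
        linarith) (hb.trans_lt hn1)) φ₂ φ hφ₂ hφ
    rw [e]
    exact d3 v ϖ₂ φ₂ s hs hφ₂

theorem st_GDX (hL2 : ST_L2) (hL3 : ST_L3) (hDIC : ST_DIC) : ST_GDX := by
  intro p n _ hp K a R hR hSg
  have hP : p.Prime := Fact.out
  -- every small disc is constant
  have hex : ∀ v ϖ : K.A, ‖(v : ℂ_[p]) - a‖ < R → ϖ ≠ 0 → ‖(ϖ : ℂ_[p])‖ < R →
      ∃ φ, CT K v ϖ φ := by
    intro v ϖ hv h0 hϖ
    apply hL2 p n hp K v ϖ h0 0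
    intro b hb hb1
    exfalso
    have hpos : 0 < ‖(ϖ : ℂ_[p])‖ := norm_pos_iff.2 (by simpa using h0)
    rw [norm_div, div_le_one hpos] at hb1
    have := gdx_sub_lt (hb1.trans_lt hϖ) hv
    exact absurd (hSg b hb) (not_le.2 this)
  -- a small radius
  obtain ⟨k, hk⟩ : ∃ k : ℕ, ‖(p : ℂ_[p])‖ ^ k < R := by
    apply exists_pow_lt_of_lt_one hR
    have h := norm_algebraMap' ℂ_[p] (p : ℚ_[p])
    rw [map_natCast] at h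
    rw [h, Padic.norm_p]
    exact inv_lt_one_of_one_lt₀ (by exact_mod_cast hP.one_lt)
  set ϖ₀ : K.A := (p : K.A) ^ k with hϖ₀
  have h00 : ϖ₀ ≠ 0 := by
    apply pow_ne_zero
    exact_mod_cast hP.ne_zero
  have hn0 : ‖(ϖ₀ : ℂ_[p])‖ < R := by
    rw [hϖ₀]
    push_cast
    rw [norm_pow]
    exact hk
  have haa : ‖(a : ℂ_[p]) - a‖ < R := by simpa using hR
  obtain ⟨φ, hφ⟩ := hex a ϖ₀ haa h00 hn0
  obtain ⟨d1, -, d3, -⟩ := hDIC p n hp K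
  refine ⟨φ, hR, ?_, ?_, ?_⟩
  · have := hφ.1
    intro h
    rw [h] at this
    exact this (by simp)
  · have := hφ.2.1
    rwa [natDegree_map_eq_of_injective C_injective] at this
  · intro v ϖ hv h0 hϖ
    obtain ⟨ϖ₁, h10, h1R, h1v⟩ : ∃ ϖ₁ : K.A, ϖ₁ ≠ 0 ∧ ‖(ϖ₁ : ℂ_[p])‖ < R ∧
        ‖(a : ℂ_[p]) - v‖ ≤ ‖(ϖ₁ : ℂ_[p])‖ := by
      by_cases hav : v - a = 0
      · refine ⟨ϖ₀, h00, hn0, ?_⟩
        have : (a : ℂ_[p]) - v = 0 := by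
          have := congrArg (fun z : K.A => (z : ℂ_[p])) hav
          simp only [AddSubgroupClass.coe_sub, ZeroMemClass.coe_zero] at this
          rw [← neg_sub, this, neg_zero]
        rw [this, norm_zero]
        exact norm_nonneg _
      · refine ⟨v - a, hav, ?_, ?_⟩
        · push_cast
          exact hv
        · push_cast
          rw [norm_sub_rev]
    have hA := gdx_conc hL3 hDIC hp K a R (fun ϖ h1 h2 => hex a ϖ haa h1 h2) ϖ₀ ϖ₁ h00 h10 hn0 h1R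
      φ hφ
    have hB := (d1 a ϖ₁ v ϖ₁ h10 h10 rfl h1v φ hA).1
    exact gdx_conc hL3 hDIC hp K v R (fun ϖ h1 h2 => hex v ϖ hv h1 h2) ϖ₁ ϖ h10 h0 h1R hϖ φ hB

end Pool.Agent.Helper60.FF
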