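import Pool.Agent.Helper24.FF.Stmts
import Pool.Agent.Helper63.FL.IPL

set_option autoImplicit false

namespace Pool.Agent.Helper24.FF

open Pool.Agent.Helper64.CT Pool.Agent.Helper64.DT Pool.Agent.Helper64.FL
open Pool.Agent.Helper64.HG (Ovl Model Circ IC HellyCircle ChordModel)

theorem lnb_bool (x1 x2 x3 x4 x5 x6 x7 x8 x9 : Bool)
    (h1 : xor (xor x1 x2) (xor x3 x4) = true) (h2 : xor (xor x5 x6) (xor x3 x7) = true)
    (h3 : xor (xor x8 x9) (xor x4 x7) = true) (h4 : x2 ≠ x8) (h5 : x6 = x9) : x1 = x5 := by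
  subst h5
  cases x2 <;> cases x8 <;> simp at h4 <;> revert h1 h2 h3 <;> revert x1 x3 x4 x5 x6 x7 <;> decide

theorem st_LNB (hCLA : ST_CLA) (hNCH : ST_NCH) (hIPX : ST_IPX) : ST_LNB := by
  intro V G S b h k p r f s A C hNS hhk nhk hS kS hip hmem php pkp hhr hkr nhf nkf hA hs hhs hks nfs
  obtain ⟨-, -, hWk, hWkA, -⟩ := hIPX V G
  obtain ⟨hcl, -⟩ := hCLA V G S b hNS
  have hsplit := (Pool.Agent.Helper63.FL.ipt_split G (p :: A) (f :: C) r).1 hip
  obtain ⟨hi1, hi2, hsep⟩ := hsplit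
  -- the last vertex of `p :: A`
  obtain ⟨l, hl⟩ : ∃ l, (p :: A).getLast? = some l := by
    cases hlast : (p :: A).getLast? with
    | none => simp at hlast
    | some l => exact ⟨l, rfl⟩
  have hlm : l ∈ p :: A := List.mem_of_getLast? hl
  have hlr : G.Adj l r := by
    have h1 := (hWkA (p :: A) [r]).1 (hWk _ hi1)
    exact h1.2.2 l hl r rfl
  have hrf : G.Adj r f := ((Pool.Agent.Helper63.FL.ipt_two G r f C).1 hi2).2.1
  have hwpA : Wk G (p :: A) := ((hWkA (p :: A) [r]).1 (hWk _ hi1)).1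
  have hwfC : Wk G (f :: C) := by
    have h1 := hWk _ hi2
    exact h1.2
  -- membership
  have mpA : ∀ y ∈ p :: A, y ∈ S ∧ y ≠ h ∧ y ≠ k := by
    intro y hy
    apply hmem
    rcases List.mem_cons.1 hy with e | e
    · rw [e]; exact List.mem_cons_self
    · exact List.mem_cons_of_mem _ (List.mem_append_left _ e)
  have mfC : ∀ y ∈ f :: C, y ∈ S ∧ y ≠ h ∧ y ≠ k := by
    intro y hy
    apply hmem
    exact List.mem_cons_of_mem _ (List.mem_append_right _ (List.mem_cons_of_mem _ hy))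
  have mr : r ∈ S ∧ r ≠ h ∧ r ≠ k := by
    apply hmem
    exact List.mem_cons_of_mem _ (List.mem_append_right _ List.mem_cons_self)
  have hf := mfC f List.mem_cons_self
  have hsC := mfC s (List.mem_cons_of_mem _ hs)
  have hlS := mpA l hlm
  have hfs : s ≠ f := by
    intro e
    exact nhf (e ▸ hhs)
  have kpA : ∀ y ∈ p :: A, ¬ G.Adj k y := by
    intro y hy
    rcases List.mem_cons.1 hy with e | e
    · rw [e]; exact pkp
    · exact (hA y e).2
  -- b f h = b f s = b f k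
  have e1 : b f h = b f s :=
    hNS.n2 f hf.1 h hS s hsC.1 ⟨hf.2.1.symm, fun e => nhf e.symm⟩ ⟨hfs, nfs⟩ hhs
  have e2 : b f k = b f s :=
    hNS.n2 f hf.1 k kS s hsC.1 ⟨hf.2.2.symm, fun e => nkf e.symm⟩ ⟨hfs, nfs⟩ hks
  -- b k h = b k l
  have e3 : b k h = b k p :=
    hNS.n2 k kS h hS p (mpA p List.mem_cons_self).1 ⟨hhk, fun e => nhk e.symm⟩
      ⟨(mpA p List.mem_cons_self).2.2, pkp⟩ php
  have e4 : b k p = b k l :=
    hNCH V G S b k (p :: A) hNS kS hwpA (fun x hx => ⟨(mpA x hx).1, (mpA x hx).2.2, kpA x hx⟩)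
      p List.mem_cons_self l hlm
  -- b l f = b l k
  have e5 : b l f = b l s :=
    hNCH V G S b l (f :: C) hNS hlS.1 hwfC
      (fun x hx => ⟨(mfC x hx).1, (hsep l hlm x hx).1.symm, (hsep l hlm x hx).2⟩)
      f List.mem_cons_self s (List.mem_cons_of_mem _ hs)
  have e6 : b l s = b l k :=
    hNS.n2 l hlS.1 s hsC.1 k kS
      ⟨(hsep l hlm s (List.mem_cons_of_mem _ hs)).1.symm,
        (hsep l hlm s (List.mem_cons_of_mem _ hs)).2⟩
      ⟨hlS.2.2.symm, fun e => kpA l hlm e.symm⟩ hks.symm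
  -- b f l = b f p = b f h
  have e7 : b f p = b f l :=
    hNCH V G S b f (p :: A) hNS hf.1 hwpA
      (fun x hx => ⟨(mpA x hx).1, (hsep x hx f List.mem_cons_self).1,
        fun e => (hsep x hx f List.mem_cons_self).2 e.symm⟩)
      p List.mem_cons_self l hlm
  have e8 : b f p = b f h :=
    hNS.n2 f hf.1 p (mpA p List.mem_cons_self).1 h hS
      ⟨(hsep p List.mem_cons_self f List.mem_cons_self).1,
        fun e => (hsep p List.mem_cons_self f List.mem_cons_self).2 e.symm⟩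
      ⟨hf.2.1.symm, fun e => nhf e.symm⟩ php.symm
  have key : b k l ≠ b k f := by
    refine hcl r mr.1 l hlS.1 f hf.1 k kS hlr.symm hrf hkr.symm
      (hsep l hlm f List.mem_cons_self).1 hlS.2.2 hf.2.2
      (hsep l hlm f List.mem_cons_self).2 (fun e => kpA l hlm e.symm) (fun e => nkf e.symm)
      (e5.trans e6) ?_
    rw [← e7, e8, e1, e2]
  have n1 := hNS.n3 r mr.1 h hS k kS hhr.symm hkr.symm hhk nhk
  have n2 := hNS.n3 r mr.1 h hS f hf.1 hhr.symm hrf hf.2.1.symm nhf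
  have n3 := hNS.n3 r mr.1 k kS f hf.1 hkr.symm hrf hf.2.2.symm nkf
  have key2 : b k h ≠ b k f := by
    rw [e3, e4]
    exact key
  refine ⟨?_, key2⟩
  have e9 : b f h = b f k := e1.trans e2.symm
  exact lnb_bool _ _ _ _ _ _ _ _ _ n1 n2 n3 key2 e9

end Pool.Agent.Helper24.FF
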