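import Pool.Agent.Helper24.FF.Stmts

set_option autoImplicit false

namespace Pool.Agent.Helper24.FF

open Pool.Agent.Helper64.CT Pool.Agent.Helper64.DT Pool.Agent.Helper64.FL
open Pool.Agent.Helper64.HG (Ovl Model Circ IC HellyCircle ChordModel)

theorem st_WF3 (hWSM : ST_WSM) (hW3 : ST_W3) (hWRO : ST_WRO) (hMRD : ST_MRD) : ST_WF3 := by
  intro V _ G hmin hwh
  obtain ⟨-, -, hcirc, -⟩ := hMRD
  obtain ⟨h, r, M, hip, hlen, hhr, hhM, hrM, hadj, hcov⟩ := hwh
  by_cases h3 : 3 ≤ M.length
  · have hrim : Rim G r M := ⟨hip, h3, hrM, hadj⟩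
    have hmem : ∀ x, x ≠ h → x ∈ r :: M := by
      intro x hx
      rcases hcov x with e | e | e
      · exact absurd e hx
      · rw [e]; exact List.mem_cons_self
      · exact List.mem_cons_of_mem _ e
    refine ⟨h, r, M, hip, h3, hhr, hhM, hrM, hadj, hcov, ?_, ?_⟩
    · by_contra hno
      have hce := hWSM V G h r M hmin.df hrim hhr hhM (by
        rintro ⟨a, -, b, -, c, -, habc⟩
        exact hno ⟨a, b, c, habc⟩)
      refine hmin.nc (hcirc V G _ ?_ hce)
      intro x
      by_cases hx : x = h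
      · exact Or.inl hx
      · exact Or.inr (hmem x hx)
    · rintro a b c hab hbc hac ha hb hc ⟨h1, h2, h3'⟩
      have hac' : G.Adj a c := hmin.df h b a c h2 h1 hab.symm h3' hbc hac
      exact (hWRO V G r).2 M hrim a b c (hmem a ha) (hmem b hb) (hmem c hc) ⟨hab, hbc, hac'⟩
  · exfalso
    obtain ⟨a, b, hM⟩ : ∃ a b, M = [a, b] := by
      match M, hlen, h3 with
      | [], hl, _ => simp at hl
      | [_], hl, _ => simp at hl
      | [a, b], _, _ => exact ⟨a, b, rfl⟩
      | _ :: _ :: _ :: _, _, h3 => simp at h3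
    subst hM
    have hab : G.Adj a b := hip.2.1 b rfl
    have hra : G.Adj r a := (hadj a (by simp)).2 (Or.inl rfl)
    have hrb : G.Adj r b := (hadj b (by simp)).2 (Or.inr rfl)
    have hha : h ≠ a := fun e => hhM (by rw [e]; simp)
    have hhb : h ≠ b := fun e => hhM (by rw [e]; simp)
    have hce := hW3 V G h r a b hmin.df hra hrb hab hhr hha hhb
    refine hmin.nc (hcirc V G _ ?_ hce)
    intro x
    rcases hcov x with e | e | e
    · exact Or.inl e
    · exact Or.inr (Or.inl e)
    · rcases List.mem_cons.1 e with e | e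
      · exact Or.inr (Or.inr (Or.inl e))
      · exact Or.inr (Or.inr (Or.inr (by simpa using e)))

end Pool.Agent.Helper24.FF
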