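import Pool.Agent.Helper24.FF.Stmts

set_option autoImplicit false

namespace Pool.Agent.Helper24.FF

open Pool.Agent.Helper64.CT Pool.Agent.Helper64.DT Pool.Agent.Helper64.FL
open Pool.Agent.Helper64.HG (Ovl Model Circ IC HellyCircle ChordModel)

theorem wmn_path (hPH : ST_PH) (hCEC : ST_CEC) {V : Type} {G : SimpleGraph V} {h z : V}
    {M : List V} (hip : IPt G M) (hhM : h ∉ M) (hcov : ∀ x, x ≠ z → x = h ∨ x ∈ M) :
    CE G {v | v ≠ z} := by
  refine hCEC V G G _ _ (hPH V G h M hip hhM) ?_ (fun _ _ _ _ _ => Iff.rfl)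
  intro x hx
  rcases hcov x hx with e | e
  · exact Or.inl e
  · exact Or.inr e

theorem st_WMN (hWCY : ST_WCY) (hWRO : ST_WRO) (hPH : ST_PH) (hCEC : ST_CEC) : ST_WMN := by
  intro V G hw z
  obtain ⟨h, r, M, hip, hlen, hhr, hhM, hrM, hadj, hcov, -, -⟩ := hw
  have hrim : Rim G r M := ⟨hip, hlen, hrM, hadj⟩
  rcases hcov z with e | e | e
  · obtain ⟨a, b, hcm, -⟩ := hWCY V G r M hrim
    refine hCEC V G G _ _ ⟨a, b, hcm⟩ ?_ (fun _ _ _ _ _ => Iff.rfl)
    intro x hx
    rcases hcov x with e' | e' | e'
    · exact absurd (e'.trans e.symm) hx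
    · rw [e']; exact List.mem_cons_self
    · exact List.mem_cons_of_mem _ e'
  · refine wmn_path hPH hCEC hip hhM ?_
    intro x hx
    rcases hcov x with e' | e' | e'
    · exact Or.inl e'
    · exact absurd (e'.trans e.symm) hx
    · exact Or.inr e'
  · obtain ⟨A, B, hAB⟩ := List.append_of_mem e
    subst hAB
    have hrim2 := (hWRO V G r).1 z A B hrim
    refine wmn_path hPH hCEC (h := h) hrim2.ip ?_ ?_
    · intro hmem
      rcases List.mem_append.1 hmem with h1 | h1
      · exact hhM (List.mem_append_right _ (List.mem_cons_of_mem _ h1))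
      · rcases List.mem_cons.1 h1 with h1 | h1
        · exact hhr h1
        · exact hhM (List.mem_append_left _ h1)
    · intro x hx
      rcases hcov x with e' | e' | e'
      · exact Or.inl e'
      · rw [e']; exact Or.inr (List.mem_append_right _ List.mem_cons_self)
      · rcases List.mem_append.1 e' with h1 | h1
        · exact Or.inr (List.mem_append_right _ (List.mem_cons_of_mem _ h1))
        · rcases List.mem_cons.1 h1 with h1 | h1
          · exact absurd h1 hx
          · exact Or.inr (List.mem_append_left _ h1)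

end Pool.Agent.Helper24.FF
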